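import Pool.Agent.R820.Filling

namespace Pool.Agent.Results.MP_5f6599_gt.NotParacompact

open Pool.Agent.R820.Filling Set

universe u v

/-- If the index set is uncountable and no factor is compact, then no subspace `D` of the product
which fills countable subproducts is paracompact. Moreover, for arbitrary factors, if `D` fills
countable subproducts and every open cover of `D` has a locally finite open refinement
(no separation axiom), then all but countably many factors are compact, and every factor without a
strictly growing countable open cover (`¬ NotCC`, i.e. every countably compact factor) is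
compact. -/
theorem result :
    (∀ (I : Type u) (X : I → Type v) [∀ i, TopologicalSpace (X i)] (D : Set (∀ i, X i)),
      Uncountable I → (∀ i, ¬ CompactSpace (X i)) → FillsCountable D →
      ¬ (T2Space D ∧ ParacompactSpace D)) ∧
    (∀ (I : Type u) (X : I → Type v) [∀ i, TopologicalSpace (X i)] (D : Set (∀ i, X i)),
      FillsCountable D → ParacompactSpace D → {i | ¬ CompactSpace (X i)}.Countable) ∧
    (∀ (I : Type u) (X : I → Type v) [∀ i, TopologicalSpace (X i)] (D : Set (∀ i, X i)),
      D.Nonempty → FillsCountable D → ParacompactSpace D → ∀ i, ¬ NotCC (X i) →
        CompactSpace (X i)) := by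
  refine ⟨?_, ?_, ?_⟩
  · intro I X _ D hI hX hD ⟨_, hpar⟩
    have h := countable_noncompact hD hpar
    have h2 : {i | ¬ CompactSpace (X i)} = univ := eq_univ_of_forall hX
    rw [h2, countable_univ_iff] at h
    exact (not_countable_iff.2 hI) h
  · intro I X _ D hD hpar
    exact countable_noncompact hD hpar
  · intro I X _ D hne hD hpar i hi
    obtain ⟨c, _⟩ := hne
    have : Nonempty I := ⟨i⟩
    exact compact_of_not_notCC hD hpar c i hi

end Pool.Agent.Results.MP_5f6599_gt.NotParacompact
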